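import Pool.Agent.Lib.H40FK.Fold

/-!
Kernel-checkable certificates for composite letters.
-/

namespace Pool.Agent.Lib.H40FK

open Pool.Agent.H85.FK

variable {A B : Type*} [DecidableEq A] [DecidableEq B]

/-- every element occurs an even number of times -/
def evenAll {T : Type*} [DecidableEq T] (l : List T) : Bool :=
  l.all (fun x => l.count x % 2 == 0)

theorem sum_even {T : Type*} [DecidableEq T] (l : List T) (h : evenAll l = true)
    (f : T → ZMod 2) : (l.map f).sum = 0 := by
  rw [Finset.sum_list_map_count]
  apply Finset.sum_eq_zero
  intro x hx
  rw [List.mem_toFinset] at hx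
  unfold evenAll at h
  rw [List.all_eq_true] at h
  have h1 := h x hx
  rw [beq_iff_eq] at h1
  obtain ⟨k, hk⟩ := Nat.dvd_of_mod_eq_zero h1
  rw [hk, mul_smul, two_nsmul]
  have : ∀ y : ZMod 2, y + y = 0 := by decide
  exact this _

/-- check that a formal sum of words of length `n` is in the radical -/
def radC (s : A → A → A) (letters : List A) : ℕ → List (List A) → Bool
  | 0, r => evenAll r
  | n + 1, r => evenAll r || letters.all (fun a => radC s letters n (r.flatMap (dels s a)))

theorem dels_length (s : A → A → A) (a : A) (w : List A) :
    ∀ t ∈ dels s a w, t.length + 1 = w.length := by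
  induction w with
  | nil => simp [dels]
  | cons x w ih =>
    intro t ht
    simp only [dels, List.mem_append, List.mem_map] at ht
    rcases ht with h | ⟨t', h1, h2⟩
    · split_ifs at h
      · rw [List.mem_singleton] at h; rw [h]; simp
      · simp at h
    · rw [← h2]; simp [ih t' h1]

theorem rad_of_radC {s : A → A → A} {letters : List A} (hl : ∀ a, a ∈ letters) (n : ℕ) :
    ∀ r : List (List A), (∀ w ∈ r, w.length = n) → radC s letters n r = true → Rad s r := by
  induction n with
  | zero =>
    intro r _ hr u
    exact sum_even r hr _
  | succ n ih =>
    intro r hn hr u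
    simp only [radC, Bool.or_eq_true, List.all_eq_true] at hr
    rcases hr with hr | hr
    · exact sum_even r hr _
    · cases u with
      | nil =>
        have : ∀ w ∈ r, Lw s eqv [] (dl A (ZMod 2)) w = 0 := by
          intro w hw
          have := hn w hw
          cases w with
          | nil => simp at this
          | cons x w => rfl
        rw [List.map_congr_left this]
        simp
      | cons a u =>
        have h1 := ih (r.flatMap (dels s a)) (by
          intro t ht
          rw [List.mem_flatMap] at ht
          obtain ⟨w, hw, ht⟩ := ht
          have h2 := dels_length s a w t ht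
          have h3 := hn w hw
          omega) (hr a (hl a)) u
        rw [sum_flatMap] at h1
        rw [← h1]
        congr 1
        apply List.map_congr_left
        intro w _
        have h2 := L_app s a w [] (Lw s eqv u (dl A (ZMod 2)))
        rw [List.append_nil, L_nil, add_zero] at h2
        rw [Lw_cons, h2]
        congr 1
        apply List.map_congr_left
        intro t _
        rw [List.append_nil]

/-- check that a formal sum of words is a relation -/
def relC (s : A → A → A) (letters : List A) (r : List (List A)) : Bool :=
  r.all (fun w => w.length == (r.headD []).length) &&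
    (radC s letters (r.headD []).length r &&
      radC s letters (r.headD []).length (r.map List.reverse))

theorem rel_of_relC {s : A → A → A} {letters : List A} (hl : ∀ a, a ∈ letters)
    (r : List (List A)) (h : relC s letters r = true) : Rel s r := by
  unfold relC at h
  rw [Bool.and_eq_true, Bool.and_eq_true, List.all_eq_true] at h
  obtain ⟨h1, h2, h3⟩ := h
  have h4 : ∀ w ∈ r, w.length = (r.headD []).length := by
    intro w hw
    have := h1 w hw
    rwa [beq_iff_eq] at this
  refine ⟨rad_of_radC hl _ r h4 h2, rad_of_radC hl _ _ ?_ h3⟩
  intro w hw
  rw [List.mem_map] at hw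
  obtain ⟨v, hv, rfl⟩ := hw
  rw [List.length_reverse]
  exact h4 v hv

/-- elementary identities: a relation in the left word, a relation in the
right word, a sum over an orbit of the involution -/
inductive Item (A : Type*)
  | rp (u v : List A) (i : ℕ) (q : List A)
  | rq (p u v : List A) (i : ℕ)
  | gg (p q : List A)

/-- the terms of an elementary identity -/
def Item.terms (rels : List (List (List A))) (g : A → A) : Item A → List (List A × List A)
  | .rp u v i q => (rels.getD i []).map (fun w => (u ++ w ++ v, q))
  | .rq p u v i => (rels.getD i []).map (fun w => (p, u ++ w ++ v))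
  | .gg p q => [(p, q), (p.map g, q.map g)]

omit [DecidableEq A] in
theorem getD_mem (rels : List (List (List A))) (i : ℕ) :
    rels.getD i [] ∈ rels ∨ rels.getD i [] = [] := by
  by_cases h : i < rels.length
  · left
    rw [List.getD_eq_getElem _ _ h]
    exact List.getElem_mem h
  · right
    exact List.getD_eq_default _ _ (by omega)

theorem rel_getD {s : A → A → A} {rels : List (List (List A))} (hr : ∀ r ∈ rels, Rel s r)
    (i : ℕ) : Rel s (rels.getD i []) := by
  rcases getD_mem rels i with h | h
  · exact hr _ h
  · rw [h]
    exact ⟨fun u => by simp, fun u => by simp⟩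

theorem Item.sum_zero {s : A → A → A} {g : A → A} {rels : List (List (List A))}
    (hr : ∀ r ∈ rels, Rel s r) (Ψ : List A → List A → ZMod 2)
    (h1 : ∀ q, Good s (fun p => Ψ p q)) (h2 : ∀ p, Good s (Ψ p))
    (h3 : ∀ p q, Ψ (p.map g) (q.map g) = Ψ p q) (it : Item A) :
    ((it.terms rels g).map (fun y => Ψ y.1 y.2)).sum = 0 := by
  cases it with
  | rp u v i q =>
    simp only [Item.terms, List.map_map]
    exact h1 q _ (rel_getD hr i) u v
  | rq p u v i =>
    simp only [Item.terms, List.map_map]
    exact h2 p _ (rel_getD hr i) u v
  | gg p q =>
    simp only [Item.terms, List.map_cons, List.map_nil, List.sum_cons, List.sum_nil, h3]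
    have : ∀ x : ZMod 2, x + (x + 0) = 0 := by decide
    exact this _

/-- the terms of the residual identity of a pair of composite letters -/
def resList (s : A → A → A) (s' : B → B → B) (comp : B → List (List A)) (b x : B) :
    List (List A × List A) :=
  (comp x).flatMap (fun v => (comp b).flatMap (fun u => NO s u v)) ++
    ((if x = b then [([], [])] else []) ++
      (comp (s' b x)).flatMap (fun p => (comp b).map (fun u => (p, u))))

/-- check a certificate -/
def check (s : A → A → A) (g : A → A) (rels : List (List (List A))) (s' : B → B → B)
    (comp : B → List (List A)) (b x : B) (cert : List (Item A)) : Bool :=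
  evenAll (resList s s' comp b x ++ cert.flatMap (fun it => it.terms rels g))

theorem res_of_check {s : A → A → A} {g : A → A} {rels : List (List (List A))}
    {s' : B → B → B} {comp : B → List (List A)} (hr : ∀ r ∈ rels, Rel s r)
    {b x : B} (cert : List (Item A)) (hc : check s g rels s' comp b x cert = true)
    (Ψ : List A → List A → ZMod 2)
    (h1 : ∀ q, Good s (fun p => Ψ p q)) (h2 : ∀ p, Good s (Ψ p))
    (h3 : ∀ p q, Ψ (p.map g) (q.map g) = Ψ p q) :
    ((comp x).map (fun v => ((comp b).map (fun u =>
      ((NO s u v).map (fun y => Ψ y.1 y.2)).sum)).sum)).sum =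
    eqv b x * Ψ [] [] +
      ((comp (s' b x)).map (fun p => ((comp b).map (fun u => Ψ p u)).sum)).sum := by
  unfold check at hc
  have h := sum_even _ hc (fun y => Ψ y.1 y.2)
  rw [List.map_append, List.sum_append, sum_flatMap] at h
  have h0 : (cert.map (fun it => ((it.terms rels g).map (fun y => Ψ y.1 y.2)).sum)).sum = 0 := by
    have : ∀ it ∈ cert, ((it.terms rels g).map (fun y => Ψ y.1 y.2)).sum = 0 :=
      fun it _ => Item.sum_zero hr Ψ h1 h2 h3 it
    rw [List.map_congr_left this]
    simp
  rw [h0, add_zero] at h
  unfold resList at h
  rw [List.map_append, List.sum_append, List.map_append, List.sum_append, sum_flatMap,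
    sum_flatMap] at h
  have e1 : ((comp x).map (fun i => (((comp b).flatMap (fun u => NO s u i)).map
      (fun y => Ψ y.1 y.2)).sum)).sum = ((comp x).map (fun v => ((comp b).map (fun u =>
      ((NO s u v).map (fun y => Ψ y.1 y.2)).sum)).sum)).sum := by
    congr 1
    apply List.map_congr_left
    intro v _
    rw [sum_flatMap]
  have e2 : ((if x = b then [(([] : List A), ([] : List A))] else []).map
      (fun y => Ψ y.1 y.2)).sum = eqv b x * Ψ [] [] := by
    unfold eqv
    split_ifs <;> simp
  have e3 : ((comp (s' b x)).map (fun i => (((comp b).map (fun u => (i, u))).map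
      (fun y => Ψ y.1 y.2)).sum)).sum =
      ((comp (s' b x)).map (fun p => ((comp b).map (fun u => Ψ p u)).sum)).sum := by
    congr 1
    apply List.map_congr_left
    intro v _
    rw [List.map_map]
    rfl
  rw [e1, e2, e3] at h
  have : ∀ a c : ZMod 2, a + c = 0 → a = c := by decide
  exact this _ _ h

/-- check invariance of a composite letter under the involution; the certificate consists of
triples: left context, right context, index of a relation -/
def checkG (g : A → A) (rels : List (List (List A))) (comp : B → List (List A)) (b : B)
    (cert : List (List A × List A × ℕ)) : Bool :=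
  evenAll (comp b ++ ((comp b).map (fun u => u.map g) ++
    cert.flatMap (fun it => (rels.getD it.2.2 []).map (fun w => it.1 ++ w ++ it.2.1))))

omit [DecidableEq B] in
theorem ginv_of_check {s : A → A → A} {g : A → A} {rels : List (List (List A))}
    {comp : B → List (List A)} (hr : ∀ r ∈ rels, Rel s r)
    {b : B} (cert : List (List A × List A × ℕ)) (hc : checkG g rels comp b cert = true)
    (φ : List A → ZMod 2) (hφ : Good s φ) :
    ((comp b).map (fun u => φ (u.map g))).sum = ((comp b).map φ).sum := by
  unfold checkG at hc
  have h := sum_even _ hc φ
  rw [List.map_append, List.sum_append, List.map_append, List.sum_append, sum_flatMap] at h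
  have h0 : (cert.map (fun it => (((rels.getD it.2.2 []).map
      (fun w => it.1 ++ w ++ it.2.1)).map φ).sum)).sum = 0 := by
    have : ∀ it ∈ cert, (((rels.getD it.2.2 []).map
      (fun w => it.1 ++ w ++ it.2.1)).map φ).sum = 0 := by
      intro it _
      rw [List.map_map]
      exact hφ _ (rel_getD hr it.2.2) it.1 it.2.1
    rw [List.map_congr_left this]
    simp
  rw [h0, add_zero, List.map_map] at h
  have : ∀ a c : ZMod 2, a + c = 0 → c = a := by decide
  exact this _ _ h

end Pool.Agent.Lib.H40FK
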