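import Pool.Agent.H85.FK.Chain

/-!
From nonvanishing iterated deletions modulo two on unordered pairs to infinite-dimensional
subalgebras of the Fomin-Kirillov algebra over the rationals.
-/

namespace Pool.Agent.Lib.H40FK

open Pool.Agent.H85.FK

variable {k : ℕ}

/-- choice of an orientation -/
noncomputable def orient (e : Sym2 (Fin k)) : Fin k × Fin k := Quot.out e

theorem mk_orient (e : Sym2 (Fin k)) : Sym2.mk (orient e).1 (orient e).2 = e := Quot.out_eq e

theorem rat_of_mod2 (u w : List (Sym2 (Fin k))) (hd : ∀ e ∈ u, ¬ e.IsDiag)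
    (h : Lw s0 eqv u (dl (Sym2 (Fin k)) (ZMod 2)) w ≠ 0) :
    Lw sX (cX ℚ) (u.map orient) (dl (Fin k × Fin k) ℚ) (w.map orient) ≠ 0 := by
  have e1 : ∀ l : List (Sym2 (Fin k)),
      (l.map orient).map (fun p : Fin k × Fin k => s(p.1, p.2)) = l := by
    intro l
    rw [List.map_map]
    have : (fun p : Fin k × Fin k => s(p.1, p.2)) ∘ orient = id := by
      funext e; exact mk_orient e
    rw [this, List.map_id]
  have hdiag : ∀ a ∈ u.map orient, a.1 ≠ a.2 := by
    intro a ha hda
    rw [List.mem_map] at ha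
    obtain ⟨e, he, rfl⟩ := ha
    apply hd e he
    rw [← mk_orient e]
    exact hda
  have h1 := Lw_pull (k := ZMod 2) sX (cX (ZMod 2)) s0 eqv
    (fun p : Fin k × Fin k => s(p.1, p.2)) (u.map orient)
    (fun a _ x => rfl) (by
      intro a ha x
      have hd := hdiag a ha
      obtain ⟨a1, a2⟩ := a
      obtain ⟨x1, x2⟩ := x
      simp only [eqv, cX, Prod.mk.injEq, Prod.swap, Sym2.eq_iff]
      by_cases h1 : x1 = a1 ∧ x2 = a2
      · obtain ⟨h1, h2⟩ := h1
        subst h1 h2
        simp only at hd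
        simp [hd]
      · by_cases h2 : x1 = a2 ∧ x2 = a1
        · obtain ⟨h3, h4⟩ := h2
          subst h3 h4
          simp only at hd
          simp [hd]
        · simp [h1, h2]) (w.map orient)
  rw [e1, e1] at h1
  rw [h1] at h
  have h2 := Lw_ringHom (Int.castRingHom (ZMod 2)) sX (cX ℤ) (cX (ZMod 2))
    (by intro a x; unfold cX; split_ifs <;> simp) (u.map orient) (w.map orient)
  have h3 := Lw_ringHom (Int.castRingHom ℚ) sX (cX ℤ) (cX ℚ)
    (by intro a x; unfold cX; split_ifs <;> simp) (u.map orient) (w.map orient)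
  intro h0
  rw [h0] at h3
  have h4 : Lw sX (cX ℤ) (u.map orient) (dl (Fin k × Fin k) ℤ) (w.map orient) = 0 := by
    have h5 : ((Lw sX (cX ℤ) (u.map orient) (dl (Fin k × Fin k) ℤ)
      (w.map orient) : ℤ) : ℚ) = 0 := h3.symm
    exact_mod_cast h5
  rw [h4, map_zero] at h2
  exact h h2

/-- the main criterion -/
theorem infinite_of_mod2 {n : ℕ} (G : SimpleGraph (Fin n)) (φ : Fin k → Fin n)
    (hφ : Function.Injective φ) (E : Sym2 (Fin k) → Prop)
    (hE : ∀ i j, E s(i, j) → i ≠ j ∧ G.Adj (φ i) (φ j))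
    (h : ∀ N : ℕ, ∃ u w : List (Sym2 (Fin k)), N ≤ u.length ∧ (∀ e ∈ u, E e) ∧
      Lw s0 eqv u (dl (Sym2 (Fin k)) (ZMod 2)) w ≠ 0) :
    ¬ FiniteDimensional ℚ (FKSub G) := by
  apply infinite_of_words
  intro N
  obtain ⟨u, w, hN, hu, hne⟩ := h N
  have hd : ∀ e ∈ u, ¬ e.IsDiag := by
    intro e he
    have h1 := hu e he
    induction e using Sym2.ind with
    | _ i j =>
      rw [Sym2.mk_isDiag_iff]
      exact (hE i j h1).1
  have hr := rat_of_mod2 u w hd hne
  refine ⟨(u.map orient).map (Prod.map φ φ), by simpa using hN, ?_, ?_⟩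
  · intro p hp
    rw [List.mem_map] at hp
    obtain ⟨q, hq, rfl⟩ := hp
    rw [List.mem_map] at hq
    obtain ⟨e, he, rfl⟩ := hq
    have h1 := hu e he
    rw [← mk_orient e] at h1
    exact (hE _ _ h1).2
  · intro h0
    apply hr
    have h1 := Lw_pull (k := ℚ) sX (cX ℚ) sX (cX ℚ) (Prod.map φ φ) (u.map orient)
      (by
        intro a _ x
        unfold sX
        simp only [Prod.map_fst, Prod.map_snd, hφ.swap_apply]
        rfl)
      (by
        intro a _ x
        unfold cX
        have e1 : (Prod.map φ φ x = Prod.map φ φ a) ↔ x = a :=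
          (hφ.prodMap hφ).eq_iff
        have e2 : (Prod.map φ φ x = (Prod.map φ φ a).swap) ↔ x = a.swap := by
          have : (Prod.map φ φ a).swap = Prod.map φ φ a.swap := rfl
          rw [this]
          exact (hφ.prodMap hφ).eq_iff
        simp only [e1, e2]) (w.map orient)
    rw [h0] at h1
    exact h1.symm

end Pool.Agent.Lib.H40FK
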