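import Pool.Agent.Lib.H40FK.Fold
import Pool.Agent.Lib.H40FK.Lift

/-!
The graph with eight vertices and ten edges: a cycle of length eight with two of its long
diagonals, crossing in the middle.
-/

namespace Pool.Agent.Lib.H40FK

open Pool.Agent.H85.FK

theorem quanV : Quan sV where
  inv := by decide +kernel
  dist := by decide +kernel
  idem := by decide +kernel

/-- long nonvanishing words in the letters `(i, 0)` -/
theorem exists_longV (m : ℕ) : ∃ w : List V, (∀ x ∈ w, x.2 = 0) ∧ m ≤ w.length ∧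
    Lw sV eqv w (dl V (ZMod 2)) ≠ 0 := by
  by_contra hcon
  push Not at hcon
  apply vs_ne_zero m
  funext u
  have h1 := vs_mem m
  have h2 : ∀ F ∈ Sp E4 (3 * m + 1), F (u.map (fun i => ((i, 0) : V))) = 0 := by
    intro F hF
    refine Submodule.span_induction
      (p := fun F _ => F (u.map (fun i => ((i, 0) : V))) = 0) ?_ ?_ ?_ ?_ hF
    · rintro _ ⟨v, _, hv, rfl⟩
      by_cases hu : u.length = 3 * m + 1
      · rw [Lw_symm quanV]
        have h3 := hcon (u.map (fun i => ((i, 0) : V))).reverse (by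
          intro x hx
          rw [List.mem_reverse, List.mem_map] at hx
          obtain ⟨i, _, rfl⟩ := hx
          rfl) (by rw [List.length_reverse, List.length_map, hu]; omega)
        rw [h3]; rfl
      · apply supp_Lw
        rw [List.length_map, hv]
        exact hu
    · rfl
    · intro x y _ _ hx hy
      rw [Pi.add_apply, hx, hy, add_zero]
    · intro c x _ hx
      rw [Pi.smul_apply, hx, smul_zero]
  have h3 := h2 _ h1
  have h4 : (u.map (fun i => ((i, 0) : V))).map Prod.fst = u := by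
    rw [List.map_map]
    exact List.map_id u
  simp only [h4] at h3
  exact h3

/-- the ten edges -/
def edge8 (e : Sym2 (Fin 8)) : Prop :=
  e = s(0, 2) ∨ e = s(1, 3) ∨ e = s(0, 4) ∨ e = s(2, 6) ∨ e = s(1, 5) ∨ e = s(3, 7) ∨
    e = s(0, 5) ∨ e = s(2, 7) ∨ e = s(1, 6) ∨ e = s(3, 4)

instance (e : Sym2 (Fin 8)) : Decidable (edge8 e) := by unfold edge8; infer_instance

theorem blk8 : ∀ i : Fin 3, ∀ b ∈ blk g1 r2 (i, 0), ∀ e ∈ blk g0 r1 b, edge8 e := by
  unfold blk
  decide +kernel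

theorem exists_mod2_8 (N : ℕ) : ∃ u w : List (Sym2 (Fin 8)), N ≤ u.length ∧
    (∀ e ∈ u, edge8 e) ∧ Lw s0 eqv u (dl (Sym2 (Fin 8)) (ZMod 2)) w ≠ 0 := by
  obtain ⟨v, hv, hN, hne⟩ := exists_longV N
  obtain ⟨w, hw⟩ := Function.ne_iff.1 hne
  rw [← down_word] at hw
  refine ⟨down v, down w, ?_, ?_, hw⟩
  · exact hN.trans ((length_blk g1 r2 v).trans (length_blk g0 r1 _))
  · intro e he
    unfold down at he
    rw [List.mem_flatMap] at he
    obtain ⟨b, hb, he⟩ := he
    rw [List.mem_flatMap] at hb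
    obtain ⟨x, hx, hb⟩ := hb
    obtain ⟨i, c⟩ := x
    have := hv _ hx
    simp only at this
    subst this
    exact blk8 i b hb e he

/-- the graph on eight vertices -/
theorem main8 {n : ℕ} (G : SimpleGraph (Fin n)) (φ : Fin 8 → Fin n)
    (hφ : Function.Injective φ) (h : ∀ i : Fin 8, G.Adj (φ i) (φ (i + 1)))
    (h04 : G.Adj (φ 0) (φ 4)) (h26 : G.Adj (φ 2) (φ 6)) :
    ¬ FiniteDimensional ℚ (FKSub G) := by
  have hc : Function.Injective (![0, 6, 4, 2, 1, 7, 5, 3] : Fin 8 → Fin 8) := by decide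
  apply infinite_of_mod2 G (φ ∘ ![0, 6, 4, 2, 1, 7, 5, 3]) (hφ.comp hc) edge8 ?_ exists_mod2_8
  intro i j hij
  have hadj : ∀ a b : Fin 8, G.Adj ((φ ∘ ![0, 6, 4, 2, 1, 7, 5, 3]) a)
      ((φ ∘ ![0, 6, 4, 2, 1, 7, 5, 3]) b) → s(i, j) = s(a, b) →
      i ≠ j ∧ G.Adj ((φ ∘ ![0, 6, 4, 2, 1, 7, 5, 3]) i)
        ((φ ∘ ![0, 6, 4, 2, 1, 7, 5, 3]) j) := by
    intro a b hab h
    rw [Sym2.eq_iff] at h
    rcases h with ⟨h1, h2⟩ | ⟨h1, h2⟩
    · subst h1 h2
      exact ⟨fun h => hab.ne (congrArg _ h), hab⟩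
    · subst h1 h2
      exact ⟨fun h => hab.ne (congrArg _ h.symm), hab.symm⟩
  rcases hij with h' | h' | h' | h' | h' | h' | h' | h' | h' | h'
  · exact hadj 0 2 h04 h'
  · exact hadj 1 3 h26.symm h'
  · exact hadj 0 4 (h 0) h'
  · exact hadj 2 6 (h 4) h'
  · exact hadj 1 5 (h 6) h'
  · exact hadj 3 7 (h 2) h'
  · exact hadj 0 5 (h 7).symm h'
  · exact hadj 2 7 (h 3).symm h'
  · exact hadj 1 6 (h 5).symm h'
  · exact hadj 3 4 (h 1).symm h'

end Pool.Agent.Lib.H40FK
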