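import Pool.Agent.H85.FK.Step

/-!
A folding theorem for deletion operators modulo two with composite letters: formal sums of words.
-/

namespace Pool.Agent.Lib.H40FK

open Pool.Agent.H85.FK

variable {A B : Type*} [DecidableEq A] [DecidableEq B]

/-- all ways to delete a letter of a word by the operator `a` -/
def dels (s : A → A → A) (a : A) : List A → List (List A)
  | [] => []
  | x :: v => (if x = a then [v] else []) ++ (dels s a v).map (fun t => s a x :: t)

theorem L_app (s : A → A → A) (a : A) (v t : List A) : ∀ H : List A → ZMod 2,
    L s eqv a H (v ++ t) = ((dels s a v).map (fun v' => H (v' ++ t))).sum +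
      L s eqv a (fun t => H (v.map (s a) ++ t)) t := by
  induction v with
  | nil => intro H; simp [dels]
  | cons x v ih =>
    intro H
    rw [List.cons_append, L_cons, ih]
    simp only [dels, List.map_append, List.sum_append, List.map_map, List.map_cons,
      List.cons_append]
    have e : (List.map (fun v' => H (s a x :: (v' ++ t))) (dels s a v)) =
      (List.map ((fun v' => H (v' ++ t)) ∘ fun t => s a x :: t) (dels s a v)) := by
      apply List.map_congr_left
      intro y _
      rfl
    rw [e]
    unfold eqv
    split_ifs <;> simp [add_assoc]

/-- normal ordering of a word of deletion operators and a word of letters -/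
def NO (s : A → A → A) : List A → List A → List (List A × List A)
  | [], v => [(v, [])]
  | a :: u, v => (dels s a v).flatMap (fun v' => NO s u v') ++
      (NO s u (v.map (s a))).map (fun x => (x.1, a :: x.2))

theorem sum_flatMap {ι κ : Type*} (l : List ι) (f : ι → List κ) (h : κ → ZMod 2) :
    ((l.flatMap f).map h).sum = (l.map (fun i => ((f i).map h).sum)).sum := by
  induction l with
  | nil => rfl
  | cons a l ih => simp [ih]

theorem L_listsum {ι : Type*} (s : A → A → A) (a : A) (l : List ι)
    (G : ι → List A → ZMod 2) (w : List A) :
    L s eqv a (fun v => (l.map (fun i => G i v)).sum) w =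
      (l.map (fun i => L s eqv a (G i) w)).sum := by
  induction l with
  | nil =>
    simp only [List.map_nil, List.sum_nil]
    have : (fun _ : List A => (0 : ZMod 2)) = 0 := rfl
    rw [this, map_zero]; rfl
  | cons i l ih =>
    simp only [List.map_cons, List.sum_cons]
    have : (fun v => G i v + (l.map (fun i => G i v)).sum) =
      G i + (fun v => (l.map (fun i => G i v)).sum) := rfl
    rw [this, map_add, Pi.add_apply, ih]

theorem Lw_listsum {ι : Type*} (s : A → A → A) (q : List A) (l : List ι)
    (G : ι → List A → ZMod 2) (w : List A) :
    Lw s eqv q (fun v => (l.map (fun i => G i v)).sum) w =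
      (l.map (fun i => Lw s eqv q (G i) w)).sum := by
  induction q generalizing w with
  | nil => rfl
  | cons a q ih =>
    simp only [Lw_cons]
    rw [← L_listsum]
    exact congrArg (fun H => L s eqv a H w) (funext (fun v => ih v))

theorem Lw_app (s : A → A → A) (u : List A) : ∀ (v t : List A) (F : List A → ZMod 2),
    Lw s eqv u F (v ++ t) =
      ((NO s u v).map (fun x => Lw s eqv x.2 (fun y => F (x.1 ++ y)) t)).sum := by
  induction u with
  | nil => intro v t F; simp [NO]
  | cons a u ih =>
    intro v t F
    rw [Lw_cons, L_app]
    simp only [NO, List.map_append, List.sum_append, sum_flatMap, List.map_map]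
    congr 1
    · congr 1
      apply List.map_congr_left
      intro v' _
      exact ih v' t F
    · have e : (fun t => Lw s eqv u F (v.map (s a) ++ t)) =
          (fun t => ((NO s u (v.map (s a))).map
            (fun x => Lw s eqv x.2 (fun y => F (x.1 ++ y)) t)).sum) :=
        funext (fun t => ih _ t F)
      rw [e, L_listsum]
      rfl


/-! Symmetry of the pairing. -/

theorem L_last (s : A → A → A) (b a : A) (u : List A) : ∀ F : List A → ZMod 2,
    L s eqv b F (u ++ [a]) = L s eqv b (fun t => F (t ++ [a])) u +
      eqv b a * F (u.map (s a)) := by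
  induction u with
  | nil => intro F; simp [L_cons, L_nil]
  | cons x u ih =>
    intro F
    rw [List.cons_append, L_cons, ih, L_cons, List.map_cons]
    have e : eqv b a * F (s b x :: u.map (s a)) = eqv b a * F (s a x :: u.map (s a)) := by
      unfold eqv
      split_ifs with h
      · rw [h]
      · ring
    rw [e, add_assoc]
    rfl

/-- remove a letter of an operator word -/
def rdels (s : A → A → A) (a : A) : List A → List (List A)
  | [] => []
  | b :: q => (if b = a then [q.map (s a)] else []) ++ (rdels s a q).map (fun t => b :: t)

theorem Lw_act {s : A → A → A} (hs : Quan s) (a : A) (q w : List A) :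
    Lw s eqv q (dl A (ZMod 2)) (w.map (s a)) =
      Lw s eqv (q.map (s a)) (dl A (ZMod 2)) w := by
  have h := Lw_pull s eqv s (eqv (A := A)) (s a) (q.map (s a))
    (by intro b _ x; exact (hs.dist a b x).symm)
    (by intro b _ x; rw [eqv_s hs, hs.inv]) w
  rw [← h, List.map_map]
  have : (s a ∘ s a) = id := funext (hs.inv a)
  rw [this, List.map_id]

theorem Lw_last {s : A → A → A} (hs : Quan s) (a : A) (q : List A) : ∀ u : List A,
    Lw s eqv q (dl A (ZMod 2)) (u ++ [a]) =
      ((rdels s a q).map (fun q' => Lw s eqv q' (dl A (ZMod 2)) u)).sum := by
  induction q with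
  | nil => intro u; cases u <;> simp [rdels, dl]
  | cons b q ih =>
    intro u
    rw [Lw_cons, L_last]
    have e : (fun t => Lw s eqv q (dl A (ZMod 2)) (t ++ [a])) = fun t =>
        ((rdels s a q).map (fun q' => Lw s eqv q' (dl A (ZMod 2)) t)).sum := funext ih
    rw [e, L_listsum, Lw_act hs]
    simp only [rdels, List.map_append, List.sum_append, List.map_map]
    rw [add_comm]
    congr 1
    unfold eqv
    by_cases h : b = a
    · subst h; simp
    · have h' : ¬ a = b := fun h2 => h h2.symm
      simp [h, h']

theorem dels_last (s : A → A → A) (a b : A) (r : List A) :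
    dels s a (r ++ [b]) = (dels s a r).map (fun t => t ++ [b]) ++
      (if b = a then [r.map (s a)] else []) := by
  induction r with
  | nil => simp [dels]
  | cons x r ih =>
    simp only [List.cons_append, dels, ih, List.map_append, List.map_map]
    by_cases hx : x = a <;> by_cases hb : b = a <;> simp [hx, hb, Function.comp_def]

theorem dels_rev (s : A → A → A) (a : A) (q : List A) (φ : List A → ZMod 2) :
    ((dels s a q.reverse).map φ).sum = ((rdels s a q).map (fun t => φ t.reverse)).sum := by
  induction q generalizing φ with
  | nil => simp [dels, rdels]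
  | cons b q ih =>
    rw [List.reverse_cons, dels_last]
    simp only [rdels, List.map_append, List.sum_append, List.map_map]
    rw [add_comm]
    congr 1
    · split_ifs <;> simp
    · have := ih (fun t => φ (t ++ [b]))
      simp only [Function.comp_def, List.reverse_cons]
      exact this

/-- exchanging the word of operators and the word of letters reverses both -/
theorem Lw_symm {s : A → A → A} (hs : Quan s) (w : List A) : ∀ q : List A,
    Lw s eqv q (dl A (ZMod 2)) w =
      Lw s eqv w.reverse (dl A (ZMod 2)) q.reverse := by
  induction w using List.reverseRecOn with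
  | nil =>
    intro q
    cases q with
    | nil => rfl
    | cons b q =>
      rw [List.reverse_nil, Lw_cons, L_nil, Lw_nil]
      cases h : (b :: q).reverse with
      | nil => simp at h
      | cons c t => rfl
  | append_singleton u a ih =>
    intro q
    rw [Lw_last hs, List.reverse_append]
    simp only [List.reverse_cons, List.reverse_nil, List.nil_append, List.cons_append, Lw_cons]
    have h := L_app s a q.reverse [] (Lw s eqv u.reverse (dl A (ZMod 2)))
    rw [List.append_nil, L_nil, add_zero] at h
    rw [h, dels_rev]
    congr 1
    apply List.map_congr_left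
    intro t _
    rw [ih t, List.append_nil]

/-! Relations and the functions that satisfy them. -/

/-- the functions obtained from the delta function by iterated deletions -/
def InB (s : A → A → A) (F : List A → ZMod 2) : Prop :=
  ∃ l : List (List A), F = fun w => (l.map (fun u => Lw s eqv u (dl A (ZMod 2)) w)).sum

/-- formal sums of words in the radical of the pairing -/
def Rad (s : A → A → A) (r : List (List A)) : Prop :=
  ∀ u, (r.map (fun w => Lw s eqv u (dl A (ZMod 2)) w)).sum = 0

/-- relations: formal sums that are in the radical together with their reversals -/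
def Rel (s : A → A → A) (r : List (List A)) : Prop :=
  Rad s r ∧ Rad s (r.map List.reverse)

/-- Functions on words that satisfy all relations. -/
def Good (s : A → A → A) (F : List A → ZMod 2) : Prop :=
  ∀ r, Rel s r → ∀ u v : List A, (r.map (fun w => F (u ++ w ++ v))).sum = 0

theorem InB.dl (s : A → A → A) : InB s (dl A (ZMod 2)) := ⟨[[]], by simp⟩

theorem InB.zero (s : A → A → A) : InB s (fun _ => (0 : ZMod 2)) := ⟨[], by simp⟩

theorem InB.add {s : A → A → A} {F G : List A → ZMod 2} (hF : InB s F) (hG : InB s G) :
    InB s (fun v => F v + G v) := by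
  obtain ⟨l, rfl⟩ := hF
  obtain ⟨m, rfl⟩ := hG
  exact ⟨l ++ m, by funext w; simp⟩

theorem InB.sum {s : A → A → A} {ι : Type*} (l : List ι) (F : ι → List A → ZMod 2)
    (h : ∀ i ∈ l, InB s (F i)) : InB s (fun v => (l.map (fun i => F i v)).sum) := by
  induction l with
  | nil => simpa using InB.zero s
  | cons a l ih =>
    simp only [List.map_cons, List.sum_cons]
    exact (h a (by simp)).add (ih (fun i hi => h i (by simp [hi])))

theorem InB.L {s : A → A → A} (a : A) {F : List A → ZMod 2} (hF : InB s F) :
    InB s (L s eqv a F) := by
  obtain ⟨l, rfl⟩ := hF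
  refine ⟨l.map (fun u => a :: u), ?_⟩
  funext w
  rw [L_listsum, List.map_map]
  rfl

theorem InB.Lw {s : A → A → A} (q : List A) {F : List A → ZMod 2}
    (hF : InB s F) : InB s (Lw s eqv q F) := by
  induction q with
  | nil => exact hF
  | cons a q ih => rw [Lw_cons]; exact ih.L a

theorem InB.append {s : A → A → A} {F : List A → ZMod 2} (hF : InB s F) (p : List A) :
    InB s (fun v => F (p ++ v)) := by
  obtain ⟨l, rfl⟩ := hF
  have e : (fun v => (l.map (fun u => H85.FK.Lw s eqv u (H85.FK.dl A (ZMod 2)) (p ++ v))).sum) =
      (fun v => (l.map (fun u => ((NO s u p).map (fun x => H85.FK.Lw s eqv x.2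
        (fun y => H85.FK.dl A (ZMod 2) (x.1 ++ y)) v)).sum)).sum) := by
    funext v
    congr 1
    apply List.map_congr_left
    intro u _
    exact Lw_app s u p v _
  rw [e]
  apply InB.sum
  intro u _
  apply InB.sum
  intro x _
  apply InB.Lw
  rcases x.1 with _ | ⟨a, t⟩
  · exact InB.dl s
  · exact InB.zero s

theorem rad_left {s : A → A → A} {r : List (List A)} (hr : Rad s r) {F : List A → ZMod 2}
    (hF : InB s F) (u : List A) : (r.map (fun w => F (u ++ w))).sum = 0 := by
  obtain ⟨l, hl⟩ := hF.append u
  have e : ∀ w, F (u ++ w) = (l.map (fun u => Lw s eqv u (dl A (ZMod 2)) w)).sum :=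
    fun w => congrFun hl w
  rw [List.map_congr_left (fun w _ => e w)]
  clear e hl
  induction l with
  | nil => simp
  | cons a l ih =>
    simp only [List.map_cons, List.sum_cons]
    rw [List.sum_map_add, hr a, ih, add_zero]

/-- relations are satisfied by iterated deletions of operators -/
theorem rel_op {s : A → A → A} (hs : Quan s) {r : List (List A)}
    (hr : Rad s (r.map List.reverse)) (u v w : List A) :
    (r.map (fun q => Lw s eqv (u ++ q ++ v) (dl A (ZMod 2)) w)).sum = 0 := by
  have e : ∀ q ∈ r, Lw s eqv (u ++ q ++ v) (dl A (ZMod 2)) w =
      Lw s eqv w.reverse (dl A (ZMod 2)) (v.reverse ++ (q.reverse ++ u.reverse)) := by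
    intro q _
    rw [Lw_symm hs]
    simp [List.reverse_append]
  rw [List.map_congr_left e]
  have h2 : ∀ t : List A, (r.map (fun q => Lw s eqv q (dl A (ZMod 2)) t)).sum = 0 := by
    intro t
    have := hr t.reverse
    rw [List.map_map] at this
    rw [← this]
    congr 1
    apply List.map_congr_left
    intro q _
    rw [Lw_symm hs]
    rfl
  -- the words of operators `u ++ q` give zero, then use the symmetry once more
  have h3 : ∀ t : List A, (r.map (fun q => Lw s eqv (u ++ q) (dl A (ZMod 2)) t)).sum = 0 := by
    intro t
    have e3 : (r.map (fun q => Lw s eqv (u ++ q) (dl A (ZMod 2)) t)) =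
        (r.map (fun q => Lw s eqv u (Lw s eqv q (dl A (ZMod 2))) t)) := by
      apply List.map_congr_left
      intro q _
      rw [Lw_append]
    rw [e3, ← Lw_listsum]
    have : (fun v => (r.map (fun i => Lw s eqv i (dl A (ZMod 2)) v)).sum) = fun _ => 0 :=
      funext h2
    rw [this]
    have h0 := Lw_listsum s u ([] : List ℕ) (fun _ => dl A (ZMod 2)) t
    simpa using h0
  have h4 : Rad s (r.map (fun q => q.reverse ++ u.reverse)) := by
    intro t
    rw [List.map_map]
    have := h3 t.reverse
    rw [← this]
    congr 1
    apply List.map_congr_left
    intro q _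
    simp only [Function.comp]
    rw [Lw_symm hs, List.reverse_append, List.reverse_reverse, List.reverse_reverse]
  have h5 := rad_left h4 ((InB.dl s).Lw w.reverse) v.reverse
  rw [List.map_map] at h5
  exact h5

theorem InB.good {s : A → A → A} (hs : Quan s) {F : List A → ZMod 2} (hF : InB s F) :
    Good s F := by
  intro r hr u v
  obtain ⟨l, rfl⟩ := hF
  -- move the right factor away by the symmetry
  have h1 : Rad s (r.map (fun w => u ++ w ++ v)) := by
    intro t
    rw [List.map_map]
    have hr' : Rad s ((r.map List.reverse).map List.reverse) := by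
      have : (r.map List.reverse).map List.reverse = r := by
        rw [List.map_map]
        have : (List.reverse ∘ List.reverse : List A → List A) = id := by
          funext x; simp
        rw [this, List.map_id]
      rw [this]; exact hr.1
    have h2 := rel_op hs hr' v.reverse u.reverse t.reverse
    rw [List.map_map] at h2
    rw [← h2]
    congr 1
    apply List.map_congr_left
    intro q _
    simp only [Function.comp]
    rw [Lw_symm hs]
    simp [List.reverse_append]
  have h2 := rad_left h1 (⟨l, rfl⟩ : InB s _) []
  rw [List.map_map] at h2
  exact h2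

theorem good_op {s : A → A → A} (hs : Quan s) {F : List A → ZMod 2} (hF : InB s F)
    (w : List A) : Good s (fun q => Lw s eqv q F w) := by
  intro r hr u v
  obtain ⟨l, rfl⟩ := hF
  have e : ∀ q ∈ r, Lw s eqv (u ++ q ++ v)
      (fun w => (l.map (fun u => Lw s eqv u (dl A (ZMod 2)) w)).sum) w =
      (l.map (fun t => Lw s eqv (u ++ q ++ (v ++ t)) (dl A (ZMod 2)) w)).sum := by
    intro q _
    rw [Lw_listsum]
    congr 1
    apply List.map_congr_left
    intro t _
    rw [← List.append_assoc, Lw_append s eqv (u ++ q ++ v) t]
  rw [List.map_congr_left e]
  clear e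
  induction l with
  | nil => simp
  | cons a l ih =>
    simp only [List.map_cons, List.sum_cons]
    rw [List.sum_map_add, rel_op hs hr.2, ih, add_zero]

/-- evaluation on composite words -/
def ev (comp : B → List (List A)) : List B → (List A → ZMod 2) → ZMod 2
  | [], F => F []
  | b :: w, F => ((comp b).map (fun u => ev comp w (fun v => F (u ++ v)))).sum

omit [DecidableEq A] [DecidableEq B] in
theorem ev_add (comp : B → List (List A)) (w : List B) : ∀ F G : List A → ZMod 2,
    ev comp w (fun v => F v + G v) = ev comp w F + ev comp w G := by
  induction w with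
  | nil => intro F G; rfl
  | cons b w ih =>
    intro F G
    simp only [ev]
    rw [← List.sum_map_add]
    congr 1
    apply List.map_congr_left
    intro u _
    exact ih _ _

omit [DecidableEq A] [DecidableEq B] in
theorem ev_zero (comp : B → List (List A)) (w : List B) :
    ev comp w (fun _ => 0) = 0 := by
  induction w with
  | nil => rfl
  | cons b w ih =>
    simp only [ev, ih]
    simp

omit [DecidableEq A] [DecidableEq B] in
theorem ev_listsum {ι : Type*} (comp : B → List (List A)) (w : List B) (l : List ι)
    (G : ι → List A → ZMod 2) : ev comp w (fun v => (l.map (fun i => G i v)).sum) =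
      (l.map (fun i => ev comp w (G i))).sum := by
  induction l with
  | nil => simpa using ev_zero comp w
  | cons i l ih =>
    simp only [List.map_cons, List.sum_cons]
    rw [ev_add, ih]

omit [DecidableEq A] [DecidableEq B] in
theorem ev_sum {ι : Type*} (comp : B → List (List A)) (w : List B) (t : Finset ι)
    (G : ι → List A → ZMod 2) : ev comp w (fun v => ∑ i ∈ t, G i v) =
      ∑ i ∈ t, ev comp w (G i) := by
  classical
  induction t using Finset.induction_on with
  | empty => simpa using ev_zero comp w
  | insert a t ha ih =>
    simp only [Finset.sum_insert ha]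
    rw [ev_add, ih]

/-- the operator of a composite letter -/
def LC (s : A → A → A) (comp : B → List (List A)) (b : B) (F : List A → ZMod 2) :
    List A → ZMod 2 := fun w => ((comp b).map (fun u => Lw s eqv u F w)).sum


omit [DecidableEq B] in
/-- relations hold after evaluation, in the prefix variable -/
theorem psi_good_left {s : A → A → A} (hs : Quan s) (comp : B → List (List A)) (w : List B)
    {F : List A → ZMod 2} (hF : InB s F) (q : List A) :
    Good s (fun p => ev comp w (Lw s eqv q (fun x => F (p ++ x)))) := by
  intro r hr u v
  rw [← ev_listsum]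
  have e : (fun t => (r.map (fun p => Lw s eqv q (fun x => F (u ++ p ++ v ++ x)) t)).sum) =
      fun _ => 0 := by
    funext t
    rw [← Lw_listsum]
    have e2 : (fun x => (r.map (fun p => F (u ++ p ++ v ++ x))).sum) = fun _ => 0 := by
      funext x
      have := hF.good hs r hr u (v ++ x)
      simpa [List.append_assoc] using this
    rw [e2]
    have h0 := Lw_listsum s q ([] : List ℕ) (fun _ => dl A (ZMod 2)) t
    simpa using h0
  rw [e]
  exact ev_zero comp w

omit [DecidableEq B] in
/-- relations hold after evaluation, in the operator variable -/
theorem psi_good_right {s : A → A → A} (hs : Quan s) (comp : B → List (List A)) (w : List B)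
    {F : List A → ZMod 2} (hF : InB s F) :
    Good s (fun q => ev comp w (Lw s eqv q F)) := by
  intro r hr u v
  rw [← ev_listsum]
  have e : (fun t => (r.map (fun q => Lw s eqv (u ++ q ++ v) F t)).sum) = fun _ => 0 := by
    funext t
    exact good_op hs hF t r hr u v
  rw [e]
  exact ev_zero comp w

theorem Lw_g {s : A → A → A} {g : A → A} (hg : ∀ a, g (g a) = a)
    (hgs : ∀ a b, g (s a b) = s (g a) (g b)) (q : List A) : ∀ (F : List A → ZMod 2)
    (w : List A), Lw s eqv (q.map g) (fun v => F (v.map g)) w = Lw s eqv q F (w.map g) := by
  induction q with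
  | nil => intro F w; rfl
  | cons a q ih =>
    intro F w
    rw [List.map_cons, Lw_cons, Lw_cons, L_g g hg hgs]
    exact congrArg (fun H => L s eqv (g a) H w) (funext (fun v => ih F v))

/-- hypotheses on composite letters -/
structure Composite (s : A → A → A) (g : A → A) (s' : B → B → B)
    (comp : B → List (List A)) : Prop where
  quan : Quan s
  inv : ∀ a, g (g a) = a
  hom : ∀ a b, g (s a b) = s (g a) (g b)
  ne : ∀ b, ∀ u ∈ comp b, u ≠ []
  ginv : ∀ b (φ : List A → ZMod 2), Good s φ →
    ((comp b).map (fun u => φ (u.map g))).sum = ((comp b).map φ).sum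
  res : ∀ b x (Ψ : List A → List A → ZMod 2), (∀ q, Good s (fun p => Ψ p q)) →
    (∀ p, Good s (Ψ p)) → (∀ p q, Ψ (p.map g) (q.map g) = Ψ p q) →
    ((comp x).map (fun v => ((comp b).map (fun u =>
      ((NO s u v).map (fun y => Ψ y.1 y.2)).sum)).sum)).sum =
    eqv b x * Ψ [] [] + ((comp (s' b x)).map (fun p => ((comp b).map (fun u => Ψ p u)).sum)).sum

section Main

variable {s : A → A → A} {g : A → A} {s' : B → B → B} {comp : B → List (List A)}

theorem ev_g (h : Composite s g s' comp) (w : List B) : ∀ F : List A → ZMod 2, InB s F →
    ev comp w (fun v => F (v.map g)) = ev comp w F := by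
  induction w with
  | nil => intro F _; rfl
  | cons x w ih =>
    intro F hF
    simp only [ev]
    have e1 : ∀ u : List A, ev comp w (fun v => F ((u ++ v).map g)) =
        ev comp w (fun v => F (u.map g ++ v)) := by
      intro u
      have := ih (fun v => F (u.map g ++ v)) (hF.append _)
      rw [← this]
      congr 1
      funext v
      rw [List.map_append]
    rw [List.map_congr_left (fun u _ => e1 u)]
    have h2 := psi_good_left h.quan comp w hF []
    exact h.ginv x _ h2

omit [DecidableEq B] in
theorem InB.LC (b : B) {F : List A → ZMod 2} (hF : InB s F) : InB s (LC s comp b F) :=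
  InB.sum _ _ (fun u _ => hF.Lw u)

theorem ginv_LC (h : Composite s g s' comp) (b : B) {F : List A → ZMod 2} (hF : InB s F)
    (hG : GInv g F) : GInv g (LC s comp b F) := by
  intro w
  unfold H40FK.LC
  have e : (fun v => F (v.map g)) = F := funext hG
  have e1 : ∀ u : List A, Lw s eqv u F (w.map g) = Lw s eqv (u.map g) F w := by
    intro u
    rw [← Lw_g h.inv h.hom, e]
  rw [List.map_congr_left (fun u _ => e1 u)]
  exact h.ginv b _ (good_op h.quan hF w)

theorem LC_fold (h : Composite s g s' comp) (b : B) (w : List B) : ∀ (F : List A → ZMod 2)
    (_ : InB s F) (_ : GInv g F),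
    ev comp w (LC s comp b F) = L s' eqv b (fun v => ev comp v F) w := by
  induction w with
  | nil =>
    intro F _ _
    rw [L_nil]
    simp only [ev, H40FK.LC]
    have : ∀ u ∈ comp b, Lw s eqv u F [] = 0 := by
      intro u hu
      cases u with
      | nil => exact absurd rfl (h.ne b _ hu)
      | cons a u => rfl
    rw [List.map_congr_left this]
    simp
  | cons x w ih =>
    intro F hF hG
    have hΨ := h.res b x (fun p q => ev comp w (Lw s eqv q (fun y => F (p ++ y))))
      (fun q => psi_good_left h.quan comp w hF q)
      (fun p => psi_good_right h.quan comp w (hF.append p))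
      (by
        intro p q
        have e1 : (fun y => F (p.map g ++ y)) = fun y => (fun z => F (p ++ z)) (y.map g) := by
          funext y
          simp only
          have := hG (p ++ y.map g)
          rw [← this, List.map_append, List.map_map]
          have e2 : (g ∘ g) = id := funext h.inv
          rw [e2, List.map_id]
        have e3 : Lw s eqv (q.map g) (fun y => F (p.map g ++ y)) =
            fun w => Lw s eqv q (fun z => F (p ++ z)) (w.map g) := by
          rw [e1]; funext w; exact Lw_g h.inv h.hom q (fun z => F (p ++ z)) w
        rw [e3]
        exact ev_g h w _ ((hF.append p).Lw q))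
    have e1 : ev comp (x :: w) (H40FK.LC s comp b F) = ((comp x).map (fun v => ((comp b).map
        (fun u => ((NO s u v).map (fun y => ev comp w (Lw s eqv y.2
          (fun z => F (y.1 ++ z))))).sum)).sum)).sum := by
      simp only [ev, H40FK.LC]
      congr 1
      apply List.map_congr_left
      intro v _
      rw [ev_listsum]
      congr 1
      apply List.map_congr_left
      intro u _
      rw [← ev_listsum]
      congr 1
      funext t
      exact Lw_app s u v t F
    rw [e1, hΨ, L_cons]
    congr 1
    · have hsum : InB s (fun v => ((comp (s' b x)).map (fun p => F (p ++ v))).sum) :=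
        InB.sum _ _ (fun p _ => hF.append p)
      have hginv : GInv g (fun v => ((comp (s' b x)).map (fun p => F (p ++ v))).sum) := by
        intro v
        have hgood : Good s (fun p => F (p ++ v)) := by
          intro r hr a c
          have := hF.good h.quan r hr a (c ++ v)
          simpa [List.append_assoc] using this
        refine Eq.trans ?_ (h.ginv (s' b x) (fun p => F (p ++ v)) hgood)
        show ((comp (s' b x)).map (fun p => F (p ++ v.map g))).sum =
          ((comp (s' b x)).map (fun p => F (p.map g ++ v))).sum
        congr 1
        apply List.map_congr_left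
        intro p _
        have := hG (p.map g ++ v)
        rw [← this, List.map_append, List.map_map]
        have e2 : (g ∘ g) = id := funext h.inv
        rw [e2, List.map_id]
      have h3 := ih _ hsum hginv
      have e4 : (fun v => ev comp (s' b x :: v) F) =
          fun v => ev comp v (fun t => ((comp (s' b x)).map (fun p => F (p ++ t))).sum) := by
        funext v
        rw [ev_listsum]
        rfl
      rw [e4, ← h3]
      have e5 : H40FK.LC s comp b (fun t => ((comp (s' b x)).map (fun p => F (p ++ t))).sum) =
          fun t => ((comp (s' b x)).map (fun p => ((comp b).map (fun u =>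
            Lw s eqv u (fun y => F (p ++ y)) t)).sum)).sum := by
        funext t
        unfold H40FK.LC
        have : ∀ u ∈ comp b, Lw s eqv u
            (fun t => ((comp (s' b x)).map (fun p => F (p ++ t))).sum) t =
            ((comp (s' b x)).map (fun p => Lw s eqv u (fun y => F (p ++ y)) t)).sum :=
          fun u _ => Lw_listsum s u _ _ t
        rw [List.map_congr_left this]
        have swap : ∀ (l₁ l₂ : List (List A)) (f : List A → List A → ZMod 2),
            (l₁.map (fun a => (l₂.map (fun c => f a c)).sum)).sum =
            (l₂.map (fun c => (l₁.map (fun a => f a c)).sum)).sum := by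
          intro l₁ l₂ f
          induction l₁ with
          | nil => simp
          | cons a l ih2 =>
            simp only [List.map_cons, List.sum_cons]
            rw [ih2, ← List.sum_map_add]
        exact swap _ _ _
      rw [e5, ev_listsum]
      congr 1
      apply List.map_congr_left
      intro p _
      rw [ev_listsum]

/-- iterated composite operators -/
def LCw (s : A → A → A) (comp : B → List (List A)) (u : List B) : List A → ZMod 2 :=
  u.foldr (fun b F => LC s comp b F) (dl A (ZMod 2))

theorem LCw_spec (h : Composite s g s' comp) (u : List B) :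
    InB s (LCw s comp u) ∧ GInv g (LCw s comp u) ∧
    ∀ w : List B, ev comp w (LCw s comp u) = Lw s' eqv u (dl B (ZMod 2)) w := by
  induction u with
  | nil =>
    refine ⟨InB.dl s, ?_, ?_⟩
    · intro w; cases w <;> rfl
    · intro w
      cases w with
      | nil => rfl
      | cons x w =>
        simp only [ev, LCw, List.foldr_nil, Lw_nil]
        have : ∀ u ∈ comp x, ev comp w (fun v => dl A (ZMod 2) (u ++ v)) = 0 := by
          intro u hu
          cases u with
          | nil => exact absurd rfl (h.ne x _ hu)
          | cons a u => exact ev_zero comp w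
        rw [List.map_congr_left this]
        simp [dl]
  | cons b u ih =>
    obtain ⟨h1, h2, h3⟩ := ih
    refine ⟨InB.LC b h1, ginv_LC h b h1 h2, ?_⟩
    intro w
    have := LC_fold h b w _ h1 h2
    have e : (fun v => ev comp v (LCw s comp u)) = Lw s' eqv u (dl B (ZMod 2)) := funext h3
    rw [e] at this
    exact this

/-- all expansions of a composite word -/
def expand (comp : B → List (List A)) : List B → List (List A)
  | [] => [[]]
  | b :: u => (comp b).flatMap (fun v => (expand comp u).map (fun t => v ++ t))

omit [DecidableEq B] in
theorem LCw_expand (u : List B) (w : List A) : LCw s comp u w =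
    ((expand comp u).map (fun v => Lw s eqv v (dl A (ZMod 2)) w)).sum := by
  induction u generalizing w with
  | nil => simp [LCw, expand]
  | cons b u ih =>
    have e : LCw s comp (b :: u) w = LC s comp b (LCw s comp u) w := rfl
    rw [e]
    unfold H40FK.LC
    simp only [expand]
    rw [sum_flatMap]
    congr 1
    apply List.map_congr_left
    intro v _
    have e2 : LCw s comp u = fun w => ((expand comp u).map
        (fun v => Lw s eqv v (dl A (ZMod 2)) w)).sum := funext ih
    rw [e2, Lw_listsum, List.map_map]
    congr 1
    apply List.map_congr_left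
    intro t _
    simp [Lw_append]

omit [DecidableEq A] [DecidableEq B] in
theorem expand_spec (hne : ∀ b, ∀ u ∈ comp b, u ≠ []) (E : A → Prop) (u : List B)
    (hE : ∀ b ∈ u, ∀ v ∈ comp b, ∀ a ∈ v, E a) :
    ∀ v ∈ expand comp u, u.length ≤ v.length ∧ ∀ a ∈ v, E a := by
  induction u with
  | nil =>
    intro v hv
    simp only [expand, List.mem_singleton] at hv
    subst hv
    simp
  | cons b u ih =>
    intro v hv
    simp only [expand, List.mem_flatMap, List.mem_map] at hv
    obtain ⟨x, hx, t, ht, rfl⟩ := hv
    obtain ⟨h1, h2⟩ := ih (fun b hb => hE b (by simp [hb])) t ht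
    constructor
    · rw [List.length_append, List.length_cons]
      have : 1 ≤ x.length := List.length_pos_iff.2 (hne b x hx)
      omega
    · intro a ha
      rcases List.mem_append.1 ha with h | h
      · exact hE b (by simp) x hx a h
      · exact h2 a h

/-- the folding theorem -/
theorem exists_word (h : Composite s g s' comp) (E : A → Prop) (u : List B)
    (hE : ∀ b ∈ u, ∀ v ∈ comp b, ∀ a ∈ v, E a) (hu : Lw s' eqv u (dl B (ZMod 2)) ≠ 0) :
    ∃ v : List A, u.length ≤ v.length ∧ (∀ a ∈ v, E a) ∧ Lw s eqv v (dl A (ZMod 2)) ≠ 0 := by
  by_contra hcon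
  push Not at hcon
  apply hu
  funext w
  have h1 := (LCw_spec h u).2.2 w
  have h2 : LCw s comp u = fun _ => 0 := by
    funext w
    rw [LCw_expand]
    have : ∀ v ∈ expand comp u, Lw s eqv v (dl A (ZMod 2)) w = 0 := by
      intro v hv
      obtain ⟨h3, h4⟩ := expand_spec h.ne E u hE v hv
      rw [hcon v h3 h4]; rfl
    rw [List.map_congr_left this]
    simp
  rw [h2, ev_zero] at h1
  exact h1.symm

end Main

end Pool.Agent.Lib.H40FK
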