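import Pool.Agent.Lib.H40FK.Cert
import Pool.Agent.H6.FK.RackB

/-!
The rack of the nine reflections of type B3 folds, with composite letters, onto the rack with
four doubled nodes.
-/

namespace Pool.Agent.Lib.H40FK

open Pool.Agent.H85.FK
open Pool.Agent.H6.FK (VB sB)

/-- table -/
def N9 : ℕ := 0x873456120874365120346578012436587012567843201658743201785643210786534210875634210

/-- the rack with nine letters -/
def s9 (b x : Fin 9) : Fin 9 := Fin.ofNat 9 ((N9 >>> (4 * (9 * b.1 + x.1))) % 16)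

/-- its involution -/
def g9 (b : Fin 9) : Fin 9 := Fin.ofNat 9 ((0x785643210 >>> (4 * b.1)) % 16)

theorem quan9 : Quan s9 where
  inv := by decide +kernel
  dist := by decide +kernel
  idem := by decide +kernel

theorem g9_g9 : ∀ a, g9 (g9 a) = a := by decide +kernel

theorem g9_s9 : ∀ a b, g9 (s9 a b) = s9 (g9 a) (g9 b) := by decide +kernel

/-- composite letters -/
def comp9 (b : VB) : List (List (Fin 9)) :=
  if b = (0, 0) then [[0]] else
  if b = (0, 1) then [[1]] else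
  if b = (1, 0) then [[5, 6]] else
  if b = (1, 1) then [[7, 8]] else
  if b = (2, 0) then [[3]] else
  if b = (2, 1) then [[4]] else
  if b = (3, 0) then [[0, 5, 0, 6], [6, 0, 5, 0]] else
  [[1, 7, 1, 8], [8, 1, 7, 1]]

/-- relations -/
def rels9 : List (List (List (Fin 9))) := [
  [[0, 5, 0, 6], [6, 0, 5, 0], [0, 6, 0, 5], [5, 0, 6, 0]],
  [[5, 5]],
  [[6, 6]],
  [[1, 7, 1, 8], [8, 1, 7, 1], [1, 8, 1, 7], [7, 1, 8, 1]],
  [[7, 7]],
  [[8, 8]],
  [[7, 8], [8, 7]],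
  [[0, 5], [6, 0], [2, 6], [5, 2]],
  [[0, 2], [2, 0]],
  [[0, 0]],
  [[2, 2]],
  [[5, 6], [6, 5]],
  [[1, 2], [2, 1]],
  [[1, 1]],
  [[1, 7], [8, 1], [2, 8], [7, 2]]]

/-- certificates -/
def cert9 (b x : VB) : List (Item (Fin 9)) :=
  if b = (0, 0) ∧ x = (1, 0) then [
    .gg [5, 6] [0]] else
  if b = (0, 0) ∧ x = (3, 0) then [
    .rp [] [] 0 [0],
    .rp [] [0] 1 [],
    .rp [0] [] 2 []] else
  if b = (0, 1) ∧ x = (1, 1) then [
    .gg [7, 8] [1]] else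
  if b = (0, 1) ∧ x = (3, 1) then [
    .rp [] [] 3 [1],
    .rp [] [1] 4 [],
    .rp [1] [] 5 []] else
  if b = (1, 0) ∧ x = (1, 0) then [
    .gg [5] [5]] else
  if b = (1, 0) ∧ x = (1, 1) then [
    .rp [] [] 6 [5, 6]] else
  if b = (1, 0) ∧ x = (3, 0) then [
    .gg [0, 2, 5] [5],
    .gg [5, 0, 2] [5],
    .rp [] [0] 7 [5],
    .rp [] [5] 8 [5],
    .rp [2] [] 7 [5],
    .rp [5] [] 8 [5],
    .rp [6] [] 9 [5],
    .rp [] [6] 10 [5],
    .rp [] [] 8 []] else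
  if b = (1, 0) ∧ x = (3, 1) then [
    .rp [] [] 3 [5, 6]] else
  if b = (1, 1) ∧ x = (1, 0) then [
    .rp [] [] 11 [7, 8]] else
  if b = (1, 1) ∧ x = (1, 1) then [
    .gg [7] [7]] else
  if b = (1, 1) ∧ x = (3, 0) then [
    .rp [] [] 0 [7, 8]] else
  if b = (1, 1) ∧ x = (3, 1) then [
    .rp [] [] 12 [],
    .gg [1, 2, 7] [7],
    .gg [7, 1, 2] [7],
    .rp [8] [] 13 [7],
    .rp [] [1] 14 [7],
    .rp [] [7] 12 [7],
    .rp [] [8] 10 [7],
    .rp [2] [] 14 [7],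
    .rp [7] [] 12 [7]] else
  if b = (2, 1) ∧ x = (1, 0) then [
    .gg [7, 8] [4]] else
  if b = (2, 1) ∧ x = (1, 1) then [
    .gg [5, 6] [4]] else
  if b = (2, 1) ∧ x = (3, 0) then [
    .rp [] [] 3 [4]] else
  if b = (2, 1) ∧ x = (3, 1) then [
    .rp [] [] 0 [4]] else
  if b = (3, 0) ∧ x = (0, 0) then [
    .gg [] [5, 0, 6]] else
  if b = (3, 0) ∧ x = (1, 0) then [
    .rq [5] [] [6] 9,
    .rq [5] [6] [] 9] else
  if b = (3, 0) ∧ x = (3, 0) then [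
    .gg [2, 5] [0, 6],
    .gg [2, 5] [5, 0],
    .gg [5, 2] [0, 5],
    .gg [5, 2] [6, 0],
    .rp [] [] 7 [0, 5],
    .rp [] [] 7 [6, 0],
    .rq [0, 5, 0] [] [6] 9,
    .rq [0, 5, 0] [6] [] 9,
    .rq [2, 5, 2] [] [6] 9,
    .rq [2, 5, 2] [6] [] 9,
    .rp [] [0] 2 [5, 0, 6],
    .rp [] [0] 2 [6, 0, 5],
    .rp [0] [] 1 [5, 0, 6],
    .rp [0] [] 1 [6, 0, 5]] else
  if b = (3, 1) ∧ x = (0, 1) then [
    .gg [] [7, 1, 8]] else
  if b = (3, 1) ∧ x = (1, 1) then [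
    .rq [7] [] [8] 13,
    .rq [7] [8] [] 13] else
  if b = (3, 1) ∧ x = (3, 1) then [
    .gg [2, 7] [1, 8],
    .gg [2, 7] [7, 1],
    .gg [7, 2] [1, 7],
    .gg [7, 2] [8, 1],
    .rp [] [] 14 [1, 7],
    .rp [] [] 14 [8, 1],
    .rq [1, 7, 1] [] [8] 13,
    .rq [1, 7, 1] [8] [] 13,
    .rq [2, 7, 2] [] [8] 13,
    .rq [2, 7, 2] [8] [] 13,
    .rp [] [1] 5 [7, 1, 8],
    .rp [] [1] 5 [8, 1, 7],
    .rp [1] [] 4 [7, 1, 8],
    .rp [1] [] 4 [8, 1, 7]] else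
  []

/-- certificates of invariance -/
def certG9 (b : VB) : List (List (Fin 9) × List (Fin 9) × ℕ) :=
  if b = (1, 0) then [
    ([], [], 11)] else
  if b = (1, 1) then [
    ([], [], 6)] else
  if b = (3, 0) then [
    ([], [], 0)] else
  if b = (3, 1) then [
    ([], [], 3)] else
  []

theorem rels9_ok : ∀ r ∈ rels9, Rel s9 r := by
  have h : rels9.all (fun r => relC s9 [0, 1, 2, 3, 4, 5, 6, 7, 8] r) = true := by
    decide +kernel
  intro r hr
  exact rel_of_relC (by decide) r (List.all_eq_true.1 h r hr)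

theorem check9 : ∀ b x : VB, check s9 g9 rels9 sB comp9 b x (cert9 b x) = true := by
  decide +kernel

theorem checkG9 : ∀ b : VB, checkG g9 rels9 comp9 b (certG9 b) = true := by
  decide +kernel

theorem composite9 : Composite s9 g9 sB comp9 where
  quan := quan9
  inv := g9_g9
  hom := g9_s9
  ne := by decide +kernel
  ginv b φ hφ := ginv_of_check rels9_ok (certG9 b) (checkG9 b) φ hφ
  res b x Ψ h1 h2 h3 := res_of_check rels9_ok (cert9 b x) (check9 b x) Ψ h1 h2 h3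

end Pool.Agent.Lib.H40FK
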