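import Pool.Agent.Lib.H40FK.Rack9
import Pool.Agent.Lib.H40FK.Lift

/-!
The subgraph on six points with seven edges: a complete graph on four points without one edge,
with a pendant edge at each of the two vertices of degree three.
-/

namespace Pool.Agent.Lib.H40FK

open Pool.Agent.H85.FK
open Pool.Agent.H6.FK (VB sB)

theorem quanB : Quan sB where
  inv := by decide +kernel
  dist := by decide +kernel
  idem := by decide +kernel

/-- long nonvanishing words in the letters `(i, 0)` -/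
theorem exists_longB (m : ℕ) : ∃ w : List VB, (∀ x ∈ w, x.2 = 0) ∧ m ≤ w.length ∧
    Lw sB eqv w (dl VB (ZMod 2)) ≠ 0 := by
  by_contra hcon
  push Not at hcon
  apply Pool.Agent.H6.FK.vs_ne_zero m
  funext u
  by_cases hu : u.length = 5 * (2 * m) + 1
  · have h1 := Pool.Agent.H6.FK.vs_mem (2 * m)
    have h2 : ∀ F ∈ Pool.Agent.H6.FK.Sp Pool.Agent.H6.FK.E5 (5 * (2 * m) + 1),
        F (u.map (fun i => ((i, 0) : VB))) = 0 := by
      intro F hF
      refine Submodule.span_induction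
        (p := fun F _ => F (u.map (fun i => ((i, 0) : VB))) = 0) ?_ ?_ ?_ ?_ hF
      · rintro _ ⟨v, _, _, rfl⟩
        rw [Lw_symm quanB]
        have h3 := hcon (u.map (fun i => ((i, 0) : VB))).reverse (by
          intro x hx
          rw [List.mem_reverse, List.mem_map] at hx
          obtain ⟨i, _, rfl⟩ := hx
          rfl) (by rw [List.length_reverse, List.length_map, hu]; omega)
        rw [h3]; rfl
      · rfl
      · intro x y _ _ hx hy
        rw [Pi.add_apply, hx, hy, add_zero]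
      · intro c x _ hx
        rw [Pi.smul_apply, hx, smul_zero]
    have h3 := h2 _ h1
    have h4 : (u.map (fun i => ((i, 0) : VB))).map Prod.fst = u := by
      rw [List.map_map]
      exact List.map_id u
    simp only [h4] at h3
    exact h3
  · -- the function is supported on words of one length
    have h1 := Pool.Agent.H6.FK.vs_mem (2 * m)
    have h2 : ∀ F ∈ Pool.Agent.H6.FK.Sp Pool.Agent.H6.FK.E5 (5 * (2 * m) + 1),
        F (u.map (fun i => ((i, 0) : VB))) = 0 := by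
      intro F hF
      refine Submodule.span_induction
        (p := fun F _ => F (u.map (fun i => ((i, 0) : VB))) = 0) ?_ ?_ ?_ ?_ hF
      · rintro _ ⟨v, _, hv, rfl⟩
        apply supp_Lw
        rw [List.length_map, hv]
        exact hu
      · rfl
      · intro x y _ _ hx hy
        rw [Pi.add_apply, hx, hy, add_zero]
      · intro c x _ hx
        rw [Pi.smul_apply, hx, smul_zero]
    have h3 := h2 _ h1
    have h4 : (u.map (fun i => ((i, 0) : VB))).map Prod.fst = u := by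
      rw [List.map_map]
      exact List.map_id u
    simp only [h4] at h3
    exact h3

/-- long nonvanishing words in the rack with nine letters -/
theorem exists_long9 (m : ℕ) : ∃ v : List (Fin 9), m ≤ v.length ∧
    (∀ a ∈ v, a = 0 ∨ a = 3 ∨ a = 5 ∨ a = 6) ∧ Lw s9 eqv v (dl (Fin 9) (ZMod 2)) ≠ 0 := by
  obtain ⟨w, hw, hm, hne⟩ := exists_longB m
  obtain ⟨v, h1, h2, h3⟩ := exists_word composite9 (fun a => a = 0 ∨ a = 3 ∨ a = 5 ∨ a = 6) w
    (by
      intro b hb
      have hb2 := hw b hb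
      have h : ∀ i : Fin 4, ∀ v ∈ comp9 (i, 0), ∀ a ∈ v, a = 0 ∨ a = 3 ∨ a = 5 ∨ a = 6 := by
        decide +kernel
      obtain ⟨i, e⟩ := b
      simp only at hb2
      subst hb2
      exact h i) hne
  exact ⟨v, by omega, h2, h3⟩

/-- the involution on six points -/
def tau6 : Equiv.Perm (Fin 6) :=
  ⟨![1, 0, 3, 2, 5, 4], ![1, 0, 3, 2, 5, 4], by decide, by decide⟩

/-- the induced map on pairs -/
def g6 (x : Sym2 (Fin 6)) : Sym2 (Fin 6) := x.map tau6

theorem g6_g6 (x : Sym2 (Fin 6)) : g6 (g6 x) = x := by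
  unfold g6
  rw [Sym2.map_map]
  have : (tau6 ∘ tau6 : Fin 6 → Fin 6) = id := by decide
  rw [this, Sym2.map_id]
  rfl

theorem g6_s0 (a b : Sym2 (Fin 6)) : g6 (s0 a b) = s0 (g6 a) (g6 b) := map_s0 tau6 a b

/-- representatives of the nine letters -/
def r6 : Fin 9 → Sym2 (Fin 6) :=
  ![s(0, 1), s(2, 3), s(4, 5), s(0, 2), s(0, 3), s(0, 4), s(0, 5), s(2, 4), s(2, 5)]

theorem r6_comm : ∀ b, s0 (r6 b) (g6 (r6 b)) = g6 (r6 b) := by decide +kernel

theorem r6_inj : ∀ b x : Fin 9, r6 x = r6 b ∨ r6 x = g6 (r6 b) → x = b := by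
  decide +kernel

theorem r6_act : ∀ b x : Fin 9, r6 (s9 b x) = ga s0 g6 r6 b (r6 x) ∨
    r6 (s9 b x) = g6 (ga s0 g6 r6 b (r6 x)) := by
  unfold ga
  decide +kernel

/-- the seven edges -/
def edge6 (e : Sym2 (Fin 6)) : Prop :=
  e = s(0, 1) ∨ e = s(0, 2) ∨ e = s(1, 3) ∨ e = s(0, 4) ∨ e = s(1, 5) ∨ e = s(0, 5) ∨
    e = s(1, 4)

instance (e : Sym2 (Fin 6)) : Decidable (edge6 e) := by unfold edge6; infer_instance

theorem blk6 : ∀ a : Fin 9, (a = 0 ∨ a = 3 ∨ a = 5 ∨ a = 6) → ∀ e ∈ blk g6 r6 a, edge6 e := by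
  unfold blk
  decide +kernel

theorem exists_mod2 (N : ℕ) : ∃ u w : List (Sym2 (Fin 6)), N ≤ u.length ∧ (∀ e ∈ u, edge6 e) ∧
    Lw s0 eqv u (dl (Sym2 (Fin 6)) (ZMod 2)) w ≠ 0 := by
  obtain ⟨v, hN, hv, hne⟩ := exists_long9 N
  obtain ⟨w, hw⟩ := Function.ne_iff.1 hne
  have h := (fold_word s9 quan0 g6_g6 g6_s0 r6_comm r6_inj r6_act v).2.2 w
  refine ⟨v.flatMap (blk g6 r6), w.flatMap (blk g6 r6), ?_, ?_, ?_⟩
  · exact hN.trans (length_blk g6 r6 v)
  · intro e he
    rw [List.mem_flatMap] at he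
    obtain ⟨a, ha, he⟩ := he
    exact blk6 a (hv a ha) e he
  · rw [h]; exact hw

/-- the graph on six vertices -/
theorem main6 {n : ℕ} (G : SimpleGraph (Fin n)) (φ : Fin 6 → Fin n)
    (hφ : Function.Injective φ) (h01 : G.Adj (φ 0) (φ 1)) (h02 : G.Adj (φ 0) (φ 2))
    (h13 : G.Adj (φ 1) (φ 3)) (h04 : G.Adj (φ 0) (φ 4)) (h15 : G.Adj (φ 1) (φ 5))
    (h05 : G.Adj (φ 0) (φ 5)) (h14 : G.Adj (φ 1) (φ 4)) :
    ¬ FiniteDimensional ℚ (FKSub G) := by
  apply infinite_of_mod2 G φ hφ edge6 ?_ exists_mod2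
  intro i j hij
  have hadj : ∀ a b : Fin 6, G.Adj (φ a) (φ b) → s(i, j) = s(a, b) →
      i ≠ j ∧ G.Adj (φ i) (φ j) := by
    intro a b hab h
    rw [Sym2.eq_iff] at h
    rcases h with ⟨h1, h2⟩ | ⟨h1, h2⟩
    · subst h1 h2
      exact ⟨fun h => hab.ne (congrArg φ h), hab⟩
    · subst h1 h2
      exact ⟨fun h => hab.ne (congrArg φ h.symm), hab.symm⟩
  rcases hij with h | h | h | h | h | h | h
  · exact hadj _ _ h01 h
  · exact hadj _ _ h02 h
  · exact hadj _ _ h13 h
  · exact hadj _ _ h04 h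
  · exact hadj _ _ h15 h
  · exact hadj _ _ h05 h
  · exact hadj _ _ h14 h

end Pool.Agent.Lib.H40FK
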